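import Mathlib

/-!
# The distinguishing index of the Mycielskian never exceeds that of the graph

For every finite graph `G` with at least three vertices and every distinguishing edge colouring
`f` of `G`, colour the Mycielskian `μ(G)` by `v_i v_j, v_i u_j, u_i v_j ↦ f(ij)` and all edges
`w u_i` with one colour.  This is a distinguishing edge colouring of `μ(G)`.
-/

namespace Pool.Agent.Results.MP_da4765_co.NoExceptions

open SimpleGraph

/-- The automorphism `φ` of `G` preserves the edge colouring `f` (only the values of `f` at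
the edges of `G` matter). -/
def Preserves {V κ : Type*} (G : SimpleGraph V) (f : Sym2 V → κ) (φ : G ≃g G) : Prop :=
  ∀ a b, G.Adj a b → f s(φ a, φ b) = f s(a, b)

/-- The edge colouring `f` of `G` is distinguishing: the only automorphism of `G` preserving it
is the identity. -/
def Distinguishing {V κ : Type*} (G : SimpleGraph V) (f : Sym2 V → κ) : Prop :=
  ∀ φ : G ≃g G, Preserves G f φ → ∀ v, φ v = v

/-- `G` has a `d`-distinguishing edge colouring. -/
def HasDistinguishing {V : Type*} (G : SimpleGraph V) (d : ℕ) : Prop :=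
  ∃ f : Sym2 V → Fin d, Distinguishing G f

/-- The distinguishing index `D'(G)` (meaningful when some `d`-distinguishing edge colouring
exists). -/
noncomputable def distIndex {V : Type*} (G : SimpleGraph V) : ℕ :=
  sInf {d | HasDistinguishing G d}

/-- The adjacency relation of the Mycielskian: `none` is `w`, `some (inl a)` is `v_a` and
`some (inr a)` is `u_a`. -/
def mycAdj {V : Type*} (G : SimpleGraph V) : Option (V ⊕ V) → Option (V ⊕ V) → Prop
  | some (Sum.inl a), some (Sum.inl b) => G.Adj a b
  | some (Sum.inl a), some (Sum.inr b) => G.Adj a b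
  | some (Sum.inr a), some (Sum.inl b) => G.Adj a b
  | none, some (Sum.inr _) => True
  | some (Sum.inr _), none => True
  | _, _ => False

/-- The Mycielskian `μ(G)`. -/
def mycielskian {V : Type*} (G : SimpleGraph V) : SimpleGraph (Option (V ⊕ V)) where
  Adj := mycAdj G
  symm := ⟨by
    rintro (_ | (a | a)) (_ | (b | b)) h <;> simp only [mycAdj] at h ⊢ <;>
      exact h.symm⟩
  loopless := ⟨by
    rintro (_ | (a | a)) h
    · exact h
    · exact G.loopless.irrefl a h
    · exact h⟩

section adj
variable {V : Type*} (G : SimpleGraph V)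

@[simp] theorem adj_ll (a b : V) :
    (mycielskian G).Adj (some (Sum.inl a)) (some (Sum.inl b)) ↔ G.Adj a b := Iff.rfl
@[simp] theorem adj_lr (a b : V) :
    (mycielskian G).Adj (some (Sum.inl a)) (some (Sum.inr b)) ↔ G.Adj a b := Iff.rfl
@[simp] theorem adj_rl (a b : V) :
    (mycielskian G).Adj (some (Sum.inr a)) (some (Sum.inl b)) ↔ G.Adj a b := Iff.rfl
@[simp] theorem adj_rr (a b : V) :
    (mycielskian G).Adj (some (Sum.inr a)) (some (Sum.inr b)) ↔ False := Iff.rfl
@[simp] theorem adj_nr (b : V) :
    (mycielskian G).Adj none (some (Sum.inr b)) ↔ True := Iff.rfl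
@[simp] theorem adj_rn (b : V) :
    (mycielskian G).Adj (some (Sum.inr b)) none ↔ True := Iff.rfl
@[simp] theorem adj_nl (b : V) :
    (mycielskian G).Adj none (some (Sum.inl b)) ↔ False := Iff.rfl
@[simp] theorem adj_ln (b : V) :
    (mycielskian G).Adj (some (Sum.inl b)) none ↔ False := Iff.rfl
@[simp] theorem adj_nn :
    (mycielskian G).Adj none none ↔ False := Iff.rfl

end adj

/-- Two distinct twins with the same colours can be swapped. -/
theorem eq_of_twins {V κ : Type*} {G : SimpleGraph V} {f : Sym2 V → κ}
    (hf : Distinguishing G f) {i j : V} (hadj : ∀ b, G.Adj i b ↔ G.Adj j b)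
    (hcol : ∀ b, G.Adj i b → f s(i, b) = f s(j, b)) : i = j := by
  classical
  by_contra hij
  have hnij : ¬ G.Adj i j := fun h => G.loopless.irrefl j ((hadj j).1 h)
  have hcol' : ∀ b, G.Adj b i → f s(b, i) = f s(b, j) := by
    intro b hb
    rw [Sym2.eq_swap, hcol b hb.symm, Sym2.eq_swap]
  have hadj' : ∀ b, G.Adj b i ↔ G.Adj b j := by
    intro b
    rw [G.adj_comm b i, G.adj_comm b j]
    exact hadj b
  have key : ∀ a b, G.Adj a b →
      G.Adj (Equiv.swap i j a) (Equiv.swap i j b) ∧
        f s(Equiv.swap i j a, Equiv.swap i j b) = f s(a, b) := by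
    intro a b hab
    by_cases ha : a = i
    · subst ha
      have hb : b ≠ a := fun h => G.loopless.irrefl a (h ▸ hab)
      have hb' : b ≠ j := fun h => hnij (h ▸ hab)
      rw [Equiv.swap_apply_left, Equiv.swap_apply_of_ne_of_ne hb hb']
      exact ⟨(hadj b).1 hab, (hcol b hab).symm⟩
    by_cases ha' : a = j
    · subst ha'
      have hb : b ≠ a := fun h => G.loopless.irrefl a (h ▸ hab)
      have hb' : b ≠ i := fun h => hnij (by rw [← h]; exact h ▸ hab.symm)
      rw [Equiv.swap_apply_right, Equiv.swap_apply_of_ne_of_ne hb' hb]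
      exact ⟨(hadj b).2 hab, hcol b ((hadj b).2 hab)⟩
    rw [Equiv.swap_apply_of_ne_of_ne ha ha']
    by_cases hb : b = i
    · subst hb
      rw [Equiv.swap_apply_left]
      exact ⟨(hadj' a).1 hab, (hcol' a hab).symm⟩
    by_cases hb' : b = j
    · subst hb'
      rw [Equiv.swap_apply_right]
      exact ⟨(hadj' a).2 hab, hcol' a ((hadj' a).2 hab)⟩
    rw [Equiv.swap_apply_of_ne_of_ne hb hb']
    exact ⟨hab, rfl⟩
  let φ : G ≃g G :=
    { toEquiv := Equiv.swap i j
      map_rel_iff' := by
        intro a b
        constructor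
        · intro h
          have := (key _ _ h).1
          simpa using this
        · intro h
          exact (key _ _ h).1 }
  have h := hf φ (fun a b hab => (key a b hab).2) i
  have h2 : φ i = j := Equiv.swap_apply_left i j
  exact hij (h.symm.trans h2)

section main

variable {V : Type*} {κ : Type*}

/-- Forget the level. -/
def proj : Option (V ⊕ V) → Option V
  | none => none
  | some (Sum.inl a) => some a
  | some (Sum.inr a) => some a

/-- The auxiliary symmetric colour function. -/
def colF (f : Sym2 V → κ) (k : κ) : Option V → Option V → κ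
  | some a, some b => f s(a, b)
  | _, _ => k

theorem colF_comm (f : Sym2 V → κ) (k : κ) (x y : Option V) :
    colF f k x y = colF f k y x := by
  cases x <;> cases y <;> simp [colF, Sym2.eq_swap]

/-- The colouring of the Mycielskian. -/
def mycCol (f : Sym2 V → κ) (k : κ) : Sym2 (Option (V ⊕ V)) → κ :=
  Sym2.lift ⟨fun x y => colF f k (proj x) (proj y), fun _ _ => colF_comm f k _ _⟩

theorem mycCol_mk (f : Sym2 V → κ) (k : κ) (x y : Option (V ⊕ V)) :
    mycCol f k s(x, y) = colF f k (proj x) (proj y) := rfl

variable [Fintype V]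

open Classical in
/-- Degree, as a sum. -/
noncomputable def dg {W : Type*} [Fintype W] (H : SimpleGraph W) (x : W) : ℕ :=
  ∑ y, if H.Adj x y then 1 else 0

open Classical in
/-- Codegree, as a sum. -/
noncomputable def cdg {W : Type*} [Fintype W] (H : SimpleGraph W) (x y : W) : ℕ :=
  ∑ z, if H.Adj x z ∧ H.Adj y z then 1 else 0

theorem dg_iso {W : Type*} [Fintype W] (H : SimpleGraph W) (φ : H ≃g H) (x : W) :
    dg H (φ x) = dg H x := by
  classical
  unfold dg
  rw [← Equiv.sum_comp φ.toEquiv]
  refine Finset.sum_congr rfl fun y _ => ?_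
  have : H.Adj (φ x) (φ.toEquiv y) ↔ H.Adj x y := φ.map_adj_iff
  simp only [this]

theorem cdg_iso {W : Type*} [Fintype W] (H : SimpleGraph W) (φ : H ≃g H) (x y : W) :
    cdg H (φ x) (φ y) = cdg H x y := by
  classical
  unfold cdg
  rw [← Equiv.sum_comp φ.toEquiv]
  refine Finset.sum_congr rfl fun z _ => ?_
  have h1 : H.Adj (φ x) (φ.toEquiv z) ↔ H.Adj x z := φ.map_adj_iff
  have h2 : H.Adj (φ y) (φ.toEquiv z) ↔ H.Adj y z := φ.map_adj_iff
  simp only [h1, h2]

theorem dg_none (G : SimpleGraph V) : dg (mycielskian G) none = Fintype.card V := by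
  classical
  unfold dg
  rw [Fintype.sum_option, Fintype.sum_sum_type]
  simp

theorem dg_inl (G : SimpleGraph V) (a : V) :
    dg (mycielskian G) (some (Sum.inl a)) = 2 * dg G a := by
  classical
  unfold dg
  rw [Fintype.sum_option, Fintype.sum_sum_type]
  simp only [adj_ln, adj_ll, adj_lr, if_false]
  ring

theorem dg_inr (G : SimpleGraph V) (a : V) :
    dg (mycielskian G) (some (Sum.inr a)) = dg G a + 1 := by
  classical
  unfold dg
  rw [Fintype.sum_option, Fintype.sum_sum_type]
  simp only [adj_rn, adj_rl, adj_rr, if_false, if_true]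
  simp [add_comm]

theorem cdg_none_inl (G : SimpleGraph V) (a : V) :
    cdg (mycielskian G) none (some (Sum.inl a)) = dg G a := by
  classical
  unfold cdg dg
  rw [Fintype.sum_option, Fintype.sum_sum_type]
  simp

theorem cdg_inl_inr (G : SimpleGraph V) (a : V) :
    cdg (mycielskian G) (some (Sum.inl a)) (some (Sum.inr a)) = dg G a := by
  classical
  unfold cdg dg
  rw [Fintype.sum_option, Fintype.sum_sum_type]
  simp

/-- `w` is not mapped to any `v_j`. -/
theorem ne_inl (hn : 3 ≤ Fintype.card V) {G : SimpleGraph V}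
    (φ : mycielskian G ≃g mycielskian G) (j : V) : φ none ≠ some (Sum.inl j) := by
  intro h
  have h1 : Fintype.card V = 2 * dg G j := by
    have := dg_iso _ φ none
    rw [h, dg_inl, dg_none] at this
    exact this.symm
  obtain ⟨y, hy⟩ : ∃ y, φ y = some (Sum.inr j) := φ.surjective _
  rcases y with _ | (i | i)
  · rw [h] at hy
    simp at hy
  · have h2 := dg_iso _ φ (some (Sum.inl i))
    rw [hy, dg_inl, dg_inr] at h2
    have h3 := cdg_iso _ φ none (some (Sum.inl i))
    rw [hy, h, cdg_none_inl, cdg_inl_inr] at h3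
    omega
  · have : (mycielskian G).Adj (φ none) (φ (some (Sum.inr i))) :=
      φ.map_adj_iff.2 (by simp)
    rw [h, hy] at this
    exact G.loopless.irrefl j this

/-- `w` is not mapped to any `u_j`. -/
theorem ne_inr (hn : 3 ≤ Fintype.card V) {G : SimpleGraph V} {f : Sym2 V → κ} {k : κ}
    (hf : Distinguishing G f)
    (φ : mycielskian G ≃g mycielskian G) (hφ : Preserves _ (mycCol f k) φ) (j : V) :
    φ none ≠ some (Sum.inr j) := by
  classical
  intro h
  have h1 : Fintype.card V = dg G j + 1 := by
    have := dg_iso _ φ none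
    rw [h, dg_inr, dg_none] at this
    exact this.symm
  -- `j` is adjacent to everything else
  have hall : ∀ b, b ≠ j → G.Adj j b := by
    by_contra hcon
    push Not at hcon
    obtain ⟨b, hbj, hb⟩ := hcon
    have hle : dg G j ≤ ∑ y : V, if (y ≠ j ∧ y ≠ b) then 1 else 0 := by
      unfold dg
      refine Finset.sum_le_sum fun y _ => ?_
      by_cases hy : G.Adj j y
      · have h1 : y ≠ j := fun h => G.loopless.irrefl j (h ▸ hy)
        have h2 : y ≠ b := fun h => hb (h ▸ hy)
        simp [hy, h1, h2]
      · simp [hy]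
    have hcard : (∑ y : V, if (y ≠ j ∧ y ≠ b) then 1 else 0) = Fintype.card V - 2 := by
      rw [← Finset.card_filter]
      have : (Finset.univ.filter fun y : V => y ≠ j ∧ y ≠ b) = Finset.univ \ {j, b} := by
        ext y
        simp
      rw [this, Finset.card_sdiff_of_subset (Finset.subset_univ _), Finset.card_univ,
        Finset.card_pair hbj.symm]
    omega
  -- neighbours of `u_j` are images of neighbours of `w`
  have hnb : ∀ b, G.Adj j b → ∃ i, φ (some (Sum.inr i)) = some (Sum.inl b) := by
    intro b hb
    obtain ⟨y, hy⟩ : ∃ y, φ y = some (Sum.inl b) := φ.surjective _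
    have hadj : (mycielskian G).Adj none y := by
      rw [← φ.map_adj_iff, h, hy]
      exact hb
    rcases y with _ | (i | i)
    · exact absurd hadj (by simp)
    · exact absurd hadj (by simp)
    · exact ⟨i, hy⟩
  have hind : ∀ b c, G.Adj j b → G.Adj j c → ¬ G.Adj b c := by
    intro b c hb hc hbc
    obtain ⟨i, hi⟩ := hnb b hb
    obtain ⟨i', hi'⟩ := hnb c hc
    have : (mycielskian G).Adj (φ (some (Sum.inr i))) (φ (some (Sum.inr i'))) := by
      rw [hi, hi']
      exact hbc
    rw [φ.map_adj_iff] at this
    exact this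
  have hcol : ∀ b, G.Adj j b → f s(j, b) = k := by
    intro b hb
    obtain ⟨i, hi⟩ := hnb b hb
    have := hφ none (some (Sum.inr i)) (by simp)
    rw [h, hi, mycCol_mk, mycCol_mk] at this
    exact this
  -- two leaves
  obtain ⟨b, c, hbj, hcj, hbc⟩ : ∃ b c : V, b ≠ j ∧ c ≠ j ∧ b ≠ c := by
    have h2 : 1 < (Finset.univ.erase j : Finset V).card := by
      rw [Finset.card_erase_of_mem (Finset.mem_univ j), Finset.card_univ]
      omega
    obtain ⟨b, hb, c, hc, hbc⟩ := Finset.one_lt_card.1 h2
    exact ⟨b, c, (Finset.mem_erase.1 hb).1, (Finset.mem_erase.1 hc).1, hbc⟩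
  have hleaf : ∀ b, b ≠ j → ∀ x, G.Adj b x ↔ x = j := by
    intro b hb x
    constructor
    · intro hx
      by_contra hxj
      exact hind b x (hall b hb) (hall x hxj) hx
    · rintro rfl
      exact (hall b hb).symm
  apply hbc
  apply eq_of_twins hf
  · intro x
    rw [hleaf b hbj, hleaf c hcj]
  · intro x hx
    rw [hleaf b hbj] at hx
    subst hx
    rw [Sym2.eq_swap, hcol b (hall b hbj), Sym2.eq_swap, hcol c (hall c hcj)]

/-- The colouring `mycCol f k` of the Mycielskian is distinguishing. -/
theorem distinguishing_mycCol (hn : 3 ≤ Fintype.card V) {G : SimpleGraph V} {f : Sym2 V → κ}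
    (k : κ) (hf : Distinguishing G f) : Distinguishing (mycielskian G) (mycCol f k) := by
  intro φ hφ
  have hw : φ none = none := by
    rcases hx : φ none with _ | (j | j)
    · rfl
    · exact absurd hx (ne_inl hn φ j)
    · exact absurd hx (ne_inr hn hf φ hφ j)
  have hw' : φ.symm none = none := by
    have h0 := φ.symm_apply_apply none
    rw [hw] at h0
    exact h0
  have hinl : ∀ ψ : mycielskian G ≃g mycielskian G, ψ none = none →
      ∀ a, ∃ b, ψ (some (Sum.inl a)) = some (Sum.inl b) := by
    intro ψ hψ a
    rcases hx : ψ (some (Sum.inl a)) with _ | (j | j)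
    · rw [← hψ] at hx
      exact absurd (ψ.injective hx) (by simp)
    · exact ⟨j, rfl⟩
    · exfalso
      have : (mycielskian G).Adj (ψ none) (ψ (some (Sum.inl a))) := by
        rw [hψ, hx]
        simp
      rw [ψ.map_adj_iff] at this
      exact this
  have hinr : ∀ a, ∃ b, φ (some (Sum.inr a)) = some (Sum.inr b) := by
    intro a
    have : (mycielskian G).Adj (φ none) (φ (some (Sum.inr a))) :=
      φ.map_adj_iff.2 (by simp)
    rw [hw] at this
    rcases hx : φ (some (Sum.inr a)) with _ | (j | j)
    · rw [hx] at this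
      exact absurd this (by simp)
    · rw [hx] at this
      exact absurd this (by simp)
    · exact ⟨j, rfl⟩
  choose σ hσ using hinl φ hw
  choose σ' hσ' using hinl φ.symm hw'
  have hinv : ∀ a, σ' (σ a) = a := by
    intro a
    have h1 := hσ' (σ a)
    rw [← hσ a, RelIso.symm_apply_apply] at h1
    simpa using h1.symm
  have hinv' : ∀ a, σ (σ' a) = a := by
    intro a
    have h1 := hσ (σ' a)
    rw [← hσ' a, RelIso.apply_symm_apply] at h1
    simpa using h1.symm
  let ψ : G ≃g G :=
    { toEquiv := ⟨σ, σ', hinv, hinv'⟩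
      map_rel_iff' := by
        intro a b
        show G.Adj (σ a) (σ b) ↔ G.Adj a b
        rw [← adj_ll, ← adj_ll G a b, ← hσ, ← hσ, φ.map_adj_iff] }
  have hσid : ∀ a, σ a = a := by
    intro a
    refine hf ψ ?_ a
    intro a b hab
    show f s(σ a, σ b) = f s(a, b)
    have := hφ (some (Sum.inl a)) (some (Sum.inl b)) hab
    rw [hσ, hσ, mycCol_mk, mycCol_mk] at this
    exact this
  have hfixl : ∀ a, φ (some (Sum.inl a)) = some (Sum.inl a) := by
    intro a
    rw [hσ, hσid]
  rintro (_ | (a | a))
  · exact hw
  · exact hfixl a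
  · obtain ⟨b, hb⟩ := hinr a
    have hadj : ∀ x, G.Adj a x ↔ G.Adj b x := by
      intro x
      rw [← adj_rl, ← adj_rl G b, ← hb]
      nth_rw 2 [← hfixl x]
      rw [φ.map_adj_iff]
    have hab : a = b := by
      refine eq_of_twins hf hadj ?_
      intro x hx
      have := hφ (some (Sum.inr a)) (some (Sum.inl x)) hx
      rw [hb, hfixl, mycCol_mk, mycCol_mk] at this
      exact this.symm
    rw [hb, hab]

/-- A `d`-distinguishing edge colouring of `G` gives one of `μ(G)`. -/
theorem hasDistinguishing_mycielskian (hn : 3 ≤ Fintype.card V) {G : SimpleGraph V} {d : ℕ}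
    (h : HasDistinguishing G d) : HasDistinguishing (mycielskian G) d := by
  obtain ⟨f, hf⟩ := h
  have : Nonempty V := Fintype.card_pos_iff.1 (by omega)
  obtain ⟨v⟩ := this
  exact ⟨mycCol f (f s(v, v)), distinguishing_mycCol hn _ hf⟩

/-- Every connected graph with at least three vertices has a distinguishing edge colouring. -/
theorem exists_hasDistinguishing (hn : 3 ≤ Fintype.card V) {G : SimpleGraph V}
    (hG : G.Connected) : ∃ d, HasDistinguishing G d := by
  classical
  refine ⟨Fintype.card (Sym2 V), fun e => Fintype.equivFin (Sym2 V) e, ?_⟩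
  intro φ hφ v
  have hedge : ∀ a b, G.Adj a b → s(φ a, φ b) = s(a, b) := fun a b hab =>
    (Fintype.equivFin (Sym2 V)).injective (hφ a b hab)
  by_contra hv
  have hnt : Nontrivial V := Fintype.one_lt_card_iff_nontrivial.1 (by omega)
  obtain ⟨b, hb⟩ : ∃ b, G.Adj v b := hG.preconnected.exists_adj_of_nontrivial v
  have h1 : φ v = b ∧ φ b = v := by
    have := hedge v b hb
    rw [Sym2.eq_iff] at this
    rcases this with h | h
    · exact absurd h.1 hv
    · exact h
  -- `{v, b}` is closed under adjacency
  have hcl : ∀ x y, (x = v ∨ x = b) → G.Adj x y → (y = v ∨ y = b) := by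
    rintro x y (rfl | rfl) hxy
    · have := hedge _ _ hxy
      rw [Sym2.eq_iff, h1.1] at this
      rcases this with h | h
      · exact absurd (h1.1.trans h.1) hv
      · exact Or.inr h.1.symm
    · have := hedge _ _ hxy
      rw [Sym2.eq_iff, h1.2] at this
      rcases this with h | h
      · exact absurd (by rw [h1.1, h.1]) hv
      · exact Or.inl h.1.symm
  have hall : ∀ y, y = v ∨ y = b := by
    intro y
    obtain ⟨p⟩ := hG.preconnected v y
    have : ∀ (x z : V) (q : G.Walk x z), (x = v ∨ x = b) → (z = v ∨ z = b) := by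
      intro x z q
      induction q with
      | nil => exact id
      | cons h q ih => exact fun hx => ih (hcl _ _ hx h)
    exact this v y p (Or.inl rfl)
  have : Fintype.card V ≤ 2 := by
    have hsub : (Finset.univ : Finset V) ⊆ {v, b} := by
      intro y _
      simpa using hall y
    exact (Finset.card_le_card hsub).trans Finset.card_le_two
  omega

end main

/-- **Main theorem.** (i) For every connected graph `G` on a finite vertex set with at least three
vertices, `D'(G)` and `D'(μ(G))` are both defined and `D'(μ(G)) ≤ D'(G)` (no exceptions at all).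
(ii) More generally, for every graph `G` with at least three vertices (connected or not), every
distinguishing edge colouring of `G` with colours in `κ` yields one of `μ(G)` with colours
in `κ`. -/
theorem result :
    (∀ (V : Type) [Fintype V] (G : SimpleGraph V), G.Connected → 3 ≤ Fintype.card V →
      (∃ d, HasDistinguishing G d) ∧ (∃ d, HasDistinguishing (mycielskian G) d) ∧
        distIndex (mycielskian G) ≤ distIndex G) ∧
    (∀ (V κ : Type) [Fintype V] (G : SimpleGraph V), 3 ≤ Fintype.card V →
      (∃ f : Sym2 V → κ, Distinguishing G f) →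
        ∃ g : Sym2 (Option (V ⊕ V)) → κ, Distinguishing (mycielskian G) g) := by
  refine ⟨?_, ?_⟩
  · intro V _ G hG hn
    have h1 := exists_hasDistinguishing hn hG
    refine ⟨h1, ?_, ?_⟩
    · obtain ⟨d, hd⟩ := h1
      exact ⟨d, hasDistinguishing_mycielskian hn hd⟩
    · have h2 : HasDistinguishing G (distIndex G) := Nat.sInf_mem (s := {d | HasDistinguishing G d}) h1
      exact Nat.sInf_le (hasDistinguishing_mycielskian hn h2)
  · rintro V κ _ G hn ⟨f, hf⟩
    have : Nonempty V := Fintype.card_pos_iff.1 (by omega)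
    obtain ⟨v⟩ := this
    exact ⟨mycCol f (f s(v, v)), distinguishing_mycCol hn _ hf⟩

end Pool.Agent.Results.MP_da4765_co.NoExceptions
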